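import Pool.Agent.Lib.MP_d61fbb_ag.MN.Final
import Pool.Agent.Lib.MP_d61fbb_ag.MN.StC3
import Pool.Agent.Lib.MP_d61fbb_ag.MN.UF

/-! The Mumford-Tate conjecture for abelian varieties of dimension `2 ^ (n - 1)`, `n` odd, over a
number field whose Galois images are of Mumford type: the Hodge group is the symplectic part of the
Zariski closure of the `l`-adic image. -/

namespace Pool.Agent.Results.MP_d61fbb_ag.AbelianMumfordTate

open Pool.Agent.MT.Sn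

theorem result (g n : ℕ) (h3 : 3 ≤ n) (hn : Odd n) (hg : 2 * g = 2 ^ n)
    (τ : Matrix (Fin g) (Fin g) ℂ) (hτ : Siegel τ)
    (K : IntermediateField ℚ ℂ) (hK : FiniteDimensional ℚ K)
    (ρ : ∀ (l : ℕ) [Fact l.Prime], (ℂ ≃ₐ[K] ℂ) →* GL (Ix g) ℤ_[l]) (hρ : TorsionRep τ K ρ)
    (B : ℕ) (hB : 6 * n ≤ B)
    (hM : ∀ (l : ℕ) [Fact l.Prime], B < l → ∃ D : Etale g n l, D.Between (Set.range (ρ l)))
    (J : Matrix (Ix g) (Ix g) ℝ) (hJ : IsCx τ J)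
    (l : ℕ) [Fact l.Prime] (hl : B < l) (i : ℚ_[l] →+* ℂ) (x : GL (Ix g) ℂ) :
    x ∈ Hodge J ↔
      x.val ∈ Matrix.symplecticGroup (Fin g) ℂ ∧ x ∈ Closure i (Set.range (ρ l)) :=
  letI : Pool.Agent.MT.Dim := ⟨n, g, h3, hn, hg⟩
  Pool.Agent.MT.stc3_final Pool.Agent.MT.si_d_final Pool.Agent.MT.si_e
    (Pool.Agent.MT.U.stage3 Pool.Agent.MT.zl2_final) τ hτ K hK ρ hρ B hB hM J hJ l hl i x

end Pool.Agent.Results.MP_d61fbb_ag.AbelianMumfordTate
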