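import Pool.Agent.Lib.MP_d61fbb_ag.MW.GZ
import Pool.Agent.Lib.MP_d61fbb_ag.MW.StW

/-! The derived Hodge group lies in the `l`-adic monodromy group for abelian varieties whose
monodromy is of type `A₁`. -/

namespace Pool.Agent.Results.MP_d61fbb_ag.AbelianTypeA1

open Pool.Agent.MT.Sw

theorem result (g e k n : ℕ) (hg : 0 < g)
    (τ : Matrix (Fin g) (Fin g) ℂ) (hτ : Siegel τ)
    (K : IntermediateField ℚ ℂ) (hK : FiniteDimensional ℚ K)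
    (ρ : ∀ (l : ℕ) [Fact l.Prime], (ℂ ≃ₐ[K] ℂ) →* GL (Ix g) ℤ_[l]) (hρ : TorsionRep τ K ρ)
    (J : Matrix (Ix g) (Ix g) ℝ) (hJ : IsCx τ J)
    (a : Matrix (Ix g) (Ix g) ℤ) (ha : StableField (a.map Int.cast))
    (haJ : Commute (a.map Int.cast) J)
    (haρ : ∀ (l : ℕ) [Fact l.Prime] σ, Commute (a.map Int.cast) (ρ l σ).val) (B : ℕ)
    (hM : ∀ (l : ℕ) [Fact l.Prime], B < l → ∃ D : Etale e k n l a, D.Between (Set.range (ρ l))) :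
    ∃ B' : ℕ, ∀ (l : ℕ) [Fact l.Prime], B' < l → ∀ (i : ℚ_[l] →+* ℂ), ∀ x ∈ ⁅Hodge J, Hodge J⁆,
      x ∈ Closure i (Set.range (ρ l)) :=
  letI : Pool.Agent.MT.Dim := ⟨g, hg⟩
  Pool.Agent.MT.stw_final Pool.Agent.MT.stageW e k n τ hτ K hK ρ hρ J hJ a ha haJ haρ B hM

end Pool.Agent.Results.MP_d61fbb_ag.AbelianTypeA1
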