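import Mathlib
import Pool.Agent.Lib.MP_d61fbb_ag.FG.G3
import Pool.Agent.Lib.MP_d61fbb_ag.FG.T

/-!
For a prime power `q = l ^ k > 2` and a finitely generated field `K` of characteristic zero, the
`l`-adic monodromy group of the new part of the Jacobian of `y ^ q = f(x)` is the full twisted
group of similitudes of the Weil pairing when the Galois group of `f` is alternating or symmetric.
-/

set_option autoImplicit false

namespace Pool.Agent.Results.MP_d61fbb_ag.Superelliptic

open Equiv Polynomial Pool.Agent.Lib.MP_d61fbb_ag.SQ Pool.Agent.Lib.MP_d61fbb_ag.WP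
  Pool.Agent.Lib.MP_d61fbb_ag.FG

theorem result
    (K : Type) [Field K] [CharZero K] (hK : ∃ s : Finset K, Subfield.closure (s : Set K) = ⊤)
    (l k q : ℕ) [Fact l.Prime] (hq : q = l ^ k) (h2 : 2 < q)
    (z : AlgebraicClosure K) (hz : IsPrimitiveRoot z q) (n : ℕ) (hn : ¬ l ∣ n) (f : K[X])
    (r : Fin n → AlgebraicClosure K) (hr : Function.Injective r)
    (hf : bar f = ∏ i, (X - C (r i)))
    (hG : (8 ≤ n ∧ ∀ π ∈ alternatingGroup (Fin n),
        ∃ γ : AlgebraicClosure K ≃ₐ[K] AlgebraicClosure K, ∀ i, γ (r i) = r (π i)) ∨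
      (5 ≤ n ∧ ∀ π : Perm (Fin n),
        ∃ γ : AlgebraicClosure K ≃ₐ[K] AlgebraicClosure K, γ z = z ∧ ∀ i, γ (r i) = r (π i))) :
    FullT (k := AlgebraicClosure K) l (Fin (n - 1) × Fin q.totient) Weil (rotb f hz) (q / l)
      (gal q f) {a | ∃ γ : AlgebraicClosure K ≃ₐ[K] AlgebraicClosure K, γ z = z ^ a} :=
  (topT (fd_fg hK) l k q hq h2 z hz n hn f r hr hf hG).1

end Pool.Agent.Results.MP_d61fbb_ag.Superelliptic
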