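import Mathlib
import Pool.Agent.Lib.MP_d61fbb_ag.DW.Br

/-!
The `2`-adic monodromy group of the parabolic cohomology of the tensor induction of the Tate module
of an elliptic curve over a hyperelliptic function field is the full group of symplectic
similitudes when the Galois group of the branch polynomial is alternating or symmetric.
-/

set_option autoImplicit false

namespace Pool.Agent.Results.MP_d61fbb_ag.ThreefoldMotive

open Equiv Polynomial Matrix Pool.Agent.Lib.MP_d61fbb_ag.SQ Pool.Agent.Lib.MP_d61fbb_ag.DS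

theorem result (K : Type) [Field K] [CharZero K]
    (hK : ∃ s : Finset K, Subfield.closure (s : Set K) = ⊤) (f S B : K[X]) (c a : K) (N n : ℕ)
    (hc : c ≠ 0) (ha : a ≠ 0) (h : B ^ 2 * f = S ^ 4 - C c * X ^ N) (hn : Odd n)
    (r : Fin n → AlgebraicClosure (RatFunc K)) (hr : Function.Injective r)
    (hf : f.map (algebraMap K _) = C (algebraMap K _ a) * ∏ i, (X - C (r i)))
    (hG : (9 ≤ n ∧ ∀ π ∈ alternatingGroup (Fin n),
        ∃ γ : Gal(AlgebraicClosure (RatFunc K)/RatFunc K), ∀ i, γ (r i) = r (π i)) ∨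
      (7 ≤ n ∧ ∀ π : Perm (Fin n),
        ∃ γ : Gal(AlgebraicClosure (RatFunc K)/RatFunc K), ∀ i, γ (r i) = r (π i))) :
    ∃ (ρ : Gal(AlgebraicClosure (RatFunc K)/RatFunc K) →
        Matrix (Fin (n - 1)) (Fin (n - 1)) ℚ_[2])
      (J : Matrix (Fin (n - 1)) (Fin (n - 1)) ℚ_[2]),
      Coh K (algebraMap K[X] (RatFunc K) f) (algebraMap K[X] (RatFunc K) S)
        (algebraMap K[X] (RatFunc K) B) ρ ∧ Jᵀ = -J ∧ J.det ≠ 0 ∧
      ∀ g : Matrix (Fin (n - 1)) (Fin (n - 1)) (PadicAlgCl 2), g.det ≠ 0 →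
        (Zar (Set.range ρ) g ↔ ∃ ν : PadicAlgCl 2,
          gᵀ * J.map (algebraMap _ _) * g = ν • J.map (algebraMap _ _)) := by
  obtain ⟨ρ, J, h1, h2, h3, -, h4, -⟩ :=
    Lib.MP_d61fbb_ag.DW.dw_main K hK f S B c a N n hc ha h hn r hr hf hG
  exact ⟨ρ, J, Lib.MP_d61fbb_ag.DW.coh_bridge h1, h2, h3, h4⟩

end Pool.Agent.Results.MP_d61fbb_ag.ThreefoldMotive
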